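import Mathlib
import Pool.Agent.P.MP_9682d1_al.B3.Three
import Pool.Agent.P.MP_9682d1_al.KB.IE
import Pool.Agent.P.MP_9682d1_al.KB.IT7
import Pool.Agent.P.MP_9682d1_al.KB.ID
import Pool.Agent.P.MP_9682d1_al.KB.IE3
import Pool.Agent.P.MP_9682d1_al.KB.IF
import Pool.Agent.P.MP_9682d1_al.KB.IG
import Pool.Agent.P.MP_9682d1_al.KB.IL4
import Pool.Agent.P.MP_9682d1_al.KB.IL5

/-! A right 4-Engel involution lies in the Hirsch-Plotkin radical. -/

set_option autoImplicit false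

namespace Pool.Agent.P.MP_9682d1_al.I

open Pool.Agent.P.MP_9682d1_al.C Pool.Agent.P.MP_9682d1_al.B3

universe u

variable {G : Type*} [Group G]

theorem cls_sq {a u : G} (h : a * a = 1) (hu : u ∈ cls a) : u * u = 1 := by
  rw [← pow_two] at h ⊢
  exact cls_pow h hu

theorem inv_eq {u : G} (h : u * u = 1) : u⁻¹ = u := inv_eq_of_mul_eq_one_right h

theorem cj_cm_inv {u v : G} (hu : u * u = 1) (hv : v * v = 1) :
    v⁻¹ * cm u v * v = (cm u v)⁻¹ := by
  rw [cm_inv]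
  simp only [cm, inv_eq hu, inv_eq hv, mul_assoc, hv, mul_one]

theorem cm_of_inv {p v : G} (h : v⁻¹ * p * v = p⁻¹) (n : ℤ) : cm (p ^ n) v = p ^ (-2 * n) := by
  have e : v⁻¹ * p ^ n * v = (v⁻¹ * p * v) ^ n := by
    have := conj_zpow (i := n) (a := v⁻¹) (b := p)
    simpa using this.symm
  rw [cm, e, h]
  group

theorem cm_cj_self {u v : G} (hu : u * u = 1) :
    cm u (v⁻¹ * u * v) = cm u v * cm u v := by
  simp only [cm, mul_inv_rev, inv_inv, inv_eq hu, mul_assoc]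

theorem eng_iff {u v : G} (hu : u * u = 1) (hv : v * v = 1) :
    cm (cm u v) v = 1 ↔ cm u v * cm u v = 1 := by
  rw [cm, cj_cm_inv hu hv, ← mul_inv_rev, inv_eq_one]

theorem pow_eight {u v : G} (hu : u * u = 1) (hv : v * v = 1) (h : RE 4 u) :
    cm u v ^ 8 = 1 := by
  have e := re4 h v
  have k := cm_of_inv (cj_cm_inv hu hv)
  rw [← zpow_one (cm u v), k, k, k] at e
  rw [← inv_eq_one, ← e, ← zpow_natCast, ← zpow_neg]
  norm_num

section inv

variable {a : G} (ha : RE 4 a) (h2 : a * a = 1)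
include ha h2

theorem t7 {u v c : G} (hu : u ∈ cls a) (hv : v ∈ cls a) (hc : c ∈ cls a)
    (p : cm u v * cm u v = 1) : cm (cm c (cm u v)) (cm u v) = 1 :=
  have E := fun w (hw : w ∈ cls a) x => KB.IE.main w x (cls_sq h2 hw) (re4 (ha.cls hw))
  KB.IT7.main u v c (cls_sq h2 hu) (cls_sq h2 hv) (cls_sq h2 hc) p
    (re4 (ha.cls hu)) (fun x => (E u hu x).1) (fun x => (E u hu x).2.1) (fun x => (E u hu x).2.2.1)
    (fun x => (E u hu x).2.2.2.1) (fun x => (E u hu x).2.2.2.2.1) (fun x => (E u hu x).2.2.2.2.2)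
    (re4 (ha.cls hv)) (fun x => (E v hv x).1) (fun x => (E v hv x).2.1) (fun x => (E v hv x).2.2.1)
    (fun x => (E v hv x).2.2.2.1) (fun x => (E v hv x).2.2.2.2.1) (fun x => (E v hv x).2.2.2.2.2)
    (re4 (ha.cls hc)) (fun x => (E c hc x).1) (fun x => (E c hc x).2.1) (fun x => (E c hc x).2.2.1)
    (fun x => (E c hc x).2.2.2.1) (fun x => (E c hc x).2.2.2.2.1) (fun x => (E c hc x).2.2.2.2.2)

/-- the central involutions of the dihedral groups of order 16 -/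
theorem sq_mem {u v : G} (hu : u ∈ cls a) (hv : v ∈ cls a)
    (p : cm u v * cm u v * (cm u v * cm u v) = 1) : cm u v * cm u v ∈ HP G := by
  let S : Set G := {e | ∃ u ∈ cls a, ∃ v ∈ cls a, e = cm u v * cm u v ∧ e * e = 1}
  have c : Cj S := by
    rintro _ ⟨u, hu, v, hv, rfl, p⟩ g
    refine ⟨_, cj_cls a u hu g, _, cj_cls a v hv g, by rw [← cj_cm]; group, ?_⟩
    calc _ = g⁻¹ * (cm u v * cm u v * (cm u v * cm u v)) * g := by group
      _ = 1 := by rw [p]; simp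
  refine sub_HP c (ln_of_comm ?_) ⟨u, hu, v, hv, rfl, p⟩
  rintro _ ⟨u, hu, v, hv, rfl, p⟩ f ⟨x, hx, y, hy, e, q⟩
  rw [← cm_cj_self (cls_sq h2 hx)] at e
  have k : ∀ w ∈ cls a, ∀ g : G, cm (cm (g⁻¹ * w * g) f) f = 1 := fun w hw g => by
    rw [e] at q ⊢
    exact t7 ha h2 hx (cj_cls a x hx y) (cj_cls a w hw g) q
  exact cm_eq_one.mp (KB.ID.main u v f (cls_sq h2 hu) (cls_sq h2 hv) q p (k u hu) (k v hv)
    (re4 (ha.cls hu)) (re4 (ha.cls hv)))

variable (sw : ∀ u ∈ cls a, ∀ v ∈ cls a, cm (cm u v) v = 1)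
include sw

theorem central {u v : G} (hu : u ∈ cls a) (hv : v ∈ cls a) (g : G) :
    cm (cm u ((g * g)⁻¹ * u * (g * g))) v = 1 := by
  have k : ∀ x ∈ cls a, ∀ y ∈ cls a, ∀ g : G, cm (cm (g⁻¹ * x * g) y) y = 1 :=
    fun x hx y hy g => sw _ (cj_cls a x hx g) y hy
  have E := fun w (hw : w ∈ cls a) x =>
    KB.IE3.main w x (cls_sq h2 hw) (k w hw w hw) (re4 (ha.cls hw))
  have F := fun x (hx : x ∈ cls a) y (hy : y ∈ cls a) g h =>
    KB.IF.main x (h⁻¹ * y * h) g (cls_sq h2 hx) (cls_sq h2 (cj_cls a y hy h)) (k x hx x hx)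
      (k x hx _ (cj_cls a y hy h)) (re4 (ha.cls hx)) (fun z => (E x hx z).1)
      (fun z => (E x hx z).2.1) (fun z => (E x hx z).2.2.1) (fun z => (E x hx z).2.2.2)
  exact KB.IG.main u v g (cls_sq h2 hu) (cls_sq h2 hv) (k u hu u hu) (k u hu v hv) (k v hv v hv)
    (re4 (ha.cls hu)) (fun z => (E u hu z).1) (fun z => (E u hu z).2.1)
    (fun z => (E u hu z).2.2.1) (fun z => (E u hu z).2.2.2)
    (re4 (ha.cls hv)) (fun z => (E v hv z).1) (fun z => (E v hv z).2.1)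
    (fun z => (E v hv z).2.2.1) (fun z => (E v hv z).2.2.2)
    (F u hu v hv) (F v hv u hu) (F u hu u hu) (F v hv v hv)

theorem central_mem {u : G} (hu : u ∈ cls a) (g : G) :
    cm u ((g * g)⁻¹ * u * (g * g)) ∈ HP G := by
  let S : Set G := {e | ∃ u ∈ cls a, ∃ g : G, e = cm u ((g * g)⁻¹ * u * (g * g))}
  have c : Cj S := by
    rintro _ ⟨u, hu, g, rfl⟩ h
    exact ⟨_, cj_cls a u hu h, h⁻¹ * g * h, by rw [cj_cm]; congr 1; group⟩
  refine sub_HP c (ln_of_comm ?_) ⟨u, hu, g, rfl⟩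
  rintro _ ⟨u, hu, g, rfl⟩ _ ⟨v, hv, h, rfl⟩
  have k := fun w hw => cm_eq_one.mp (central ha h2 sw hu (v := w) hw g)
  exact (k v hv).inv_right.mul_right (k _ (cj_cls a v hv _))

theorem good (l : ∀ u ∈ cls a, ∀ g : G, cm u ((g * g)⁻¹ * u * (g * g)) = 1) : Good (cls a) := by
  have k : ∀ x ∈ cls a, ∀ y ∈ cls a, ∀ g : G, cm (cm (g⁻¹ * x * g) y) y = 1 :=
    fun x hx y hy g => sw _ (cj_cls a x hx g) y hy
  have L : ∀ u ∈ cls a, ∀ g : G, Commute (cm u (g⁻¹ * u * g)) g := fun u hu g =>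
    cm_eq_one.mp (KB.IL4.main u g (cls_sq h2 hu) (k u hu u hu) (re4 (ha.cls hu)) (l u hu))
  have M : ∀ u ∈ cls a, ∀ v ∈ cls a, ∀ w ∈ cls a, Commute (cm u v) (cm u w) := by
    intro u hu v hv w hw
    obtain ⟨g, rfl⟩ := exists_cj_of_cls hu hv
    have c : Commute (cm u w) u := by
      rw [← cm_inv]
      exact (cm_eq_one.mp (sw w hw u hu)).inv_left
    have e : (cm u w * g)⁻¹ * u * (cm u w * g) = g⁻¹ * u * g := by
      rw [mul_inv_rev, mul_assoc, mul_assoc, ← mul_assoc u, ← c.eq]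
      group
    have := L u hu (cm u w * g)
    rw [e] at this
    simpa using this.mul_right (L u hu g).inv_right
  refine ⟨cj_cls a, sw, cl3_of_key fun x hx y hy w hw s hs t ht => ?_⟩
  have m1 : Commute (cm x y) (cm y w) := by
    simpa only [cm_inv] using (M y hy x hx w hw).inv_left
  have m2 : Commute (cm x w) (cm y w) := by
    simpa only [cm_inv] using (M w hw x hx y hy).inv_left.inv_right
  obtain ⟨t1, t2, t3, t4, t5, t6, t7, t8, t9⟩ := KB.IL5.main x y w (cls_sq h2 hx) (cls_sq h2 hy)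
    (cls_sq h2 hw) (cm_eq_one.mpr (M x hx y hy w hw))
    (cm_eq_one.mpr m1) (cm_eq_one.mpr m2)
    (k x hx x hx) (k x hx y hy) (k x hx w hw) (k y hy y hy) (k y hy w hw) (k w hw w hw)
  rcases hs with rfl | rfl | rfl <;> rcases ht with rfl | rfl | rfl <;> assumption

end inv

theorem cls_lift {Q : Type*} [Group Q] {f : G →* Q} (hf : Function.Surjective f) {a : G} {q : Q}
    (hq : q ∈ cls (f a)) : ∃ u ∈ cls a, f u = q := by
  rwa [← image_cls hf] at hq

theorem hp_sandwich {G : Type u} [Group G] {a : G} (ha : RE 4 a) (h2 : a * a = 1)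
    (sw : ∀ u ∈ cls a, ∀ v ∈ cls a, cm u v * cm u v = 1) : a ∈ HP G := by
  have sw' : ∀ u ∈ cls a, ∀ v ∈ cls a, cm (cm u v) v = 1 := fun u hu v hv =>
    (eng_iff (cls_sq h2 hu) (cls_sq h2 hv)).2 (sw u hu v hv)
  refine ha.hp_of_quot fun Q _ φ hφ hk => ?_
  refine (good (ha.map hφ) (by rw [← map_mul, h2, map_one]) (fun u hu v hv => ?_)
    fun u hu g => ?_).sub_HP (self_mem_cls _)
  · obtain ⟨u, hu', rfl⟩ := cls_lift hφ hu
    have hu := hu'
    obtain ⟨v, hv', rfl⟩ := cls_lift hφ hv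
    have hv := hv'
    rw [← map_cm, ← map_cm, sw' u hu v hv, map_one]
  · obtain ⟨u, hu', rfl⟩ := cls_lift hφ hu
    have hu := hu'
    obtain ⟨g, rfl⟩ := hφ g
    simpa [map_cm] using hk _ (central_mem ha h2 sw' hu g)

theorem hp_four {G : Type u} [Group G] {a : G} (ha : RE 4 a) (h2 : a * a = 1)
    (sw : ∀ u ∈ cls a, ∀ v ∈ cls a, cm u v * cm u v * (cm u v * cm u v) = 1) : a ∈ HP G := by
  refine ha.hp_of_quot fun Q _ φ hφ hk => ?_
  refine hp_sandwich (ha.map hφ) (by rw [← map_mul, h2, map_one]) fun u hu v hv => ?_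
  obtain ⟨u, hu', rfl⟩ := cls_lift hφ hu
  have hu := hu'
  obtain ⟨v, hv', rfl⟩ := cls_lift hφ hv
  have hv := hv'
  simpa [map_cm] using hk _ (sq_mem ha h2 hu hv (sw u hu v hv))

/-- a right 4-Engel involution lies in the Hirsch-Plotkin radical -/
theorem mem_HP_two {G : Type u} [Group G] {a : G} (ha : RE 4 a) (h2 : a ^ 2 = 1) : a ∈ HP G := by
  rw [pow_two] at h2
  refine ha.hp_of_quot fun Q _ φ hφ hk => ?_
  refine hp_four (ha.map hφ) (by rw [← map_mul, h2, map_one]) fun u hu v hv => ?_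
  obtain ⟨u, hu', rfl⟩ := cls_lift hφ hu
  have hu := hu'
  obtain ⟨v, hv', rfl⟩ := cls_lift hφ hv
  have hv := hv'
  have e := cm_cj_self (v := v) (cls_sq h2 hu)
  have := sq_mem ha h2 hu (cj_cls a u hu v) (by
    rw [e, ← pow_eight (cls_sq h2 hu) (cls_sq h2 hv) (ha.cls hu)]
    simp only [pow_succ, pow_zero, one_mul, mul_assoc])
  rw [e] at this
  simpa [map_cm] using hk _ this

end Pool.Agent.P.MP_9682d1_al.I
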